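import Pool.Agent.Helper40.TQ.Defs

/-!
PROJECT TQ, module TQ-3. A ring of prime characteristic embeds in an algebra over an infinite field of that characteristic.

`CharP R p` from `(p : R) = 0` (`R` nontrivial, `p` prime), `Algebra (ZMod p) R` (`ZMod.algebra`), `K = AlgebraicClosure (ZMod p)` (infinite: `IsAlgClosed` fields are infinite; or take `RatFunc (ZMod p)`),
`A = TensorProduct (ZMod p) K R`, `Φ = Algebra.TensorProduct.includeRight` (injective: everything is free over a field, `Algebra.TensorProduct.includeRight_injective`).
-/

set_option autoImplicit false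

namespace Pool.Agent.Helper40.TQ

theorem exists_ext (p : ℕ) [Fact p.Prime] (R : Type) [Ring R] [Nontrivial R] (h : (p : R) = 0) :
    ∃ (K : Type) (_ : Field K) (_ : Infinite K) (_ : CharP K p) (A : Type) (_ : Ring A) (_ : Algebra K A) (Φ : R →+* A),
      Function.Injective Φ := by
  haveI hR : CharP R p := by
    have hd := (CharP.cast_eq_zero_iff R (ringChar R) p).mp h
    haveI : CharP R (ringChar R) := inferInstance
    rcases (Nat.dvd_prime (Fact.out : p.Prime)).mp hd with h1 | h1
    · exfalso
      have h2 : ((1 : ℕ) : R) = 0 := by
        rw [← h1]; exact ringChar.Nat.cast_ringChar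
      simp at h2
    · rw [← h1]; infer_instance
  letI : Algebra (ZMod p) R := ZMod.algebra R p
  let K := AlgebraicClosure (ZMod p)
  haveI hinf : Infinite K := IsAlgClosed.instInfinite
  haveI hch : CharP K p := charP_of_injective_algebraMap (algebraMap (ZMod p) K).injective p
  refine ⟨K, inferInstance, hinf, hch, TensorProduct (ZMod p) K R, inferInstance, inferInstance,
    (Algebra.TensorProduct.includeRight : R →ₐ[ZMod p] TensorProduct (ZMod p) K R).toRingHom, ?_⟩
  have := Algebra.TensorProduct.includeRight_injective (R := ZMod p) (A := K) (B := R) (algebraMap (ZMod p) K).injective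
  exact this

end Pool.Agent.Helper40.TQ
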