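import Pool.Agent.Helper40.TQ.DegP
import Pool.Agent.Helper40.TF.GrpRel
import Pool.Agent.Helper28.TP.AdExp

/-!
PROJECT TQ, module TQ-6. The Engel relation from the group, characteristic `p` larger than the degree.

Port of `Pool/Agent/Helper40/TF/GrpRel.lean` (`pr_int`, `erel_of_group`), with `Pool.Agent.Helper28.TP.ex_add`, `ex_mul_neg`, `ex_neg_mul`, `pr_inv`, `inv_pr` (hypothesis `Big K (2 * N)`) instead of the characteristic zero versions, and with `erel_of_int_p` (module TQ-5). `grp_ws`, `ws_hom`, `wg` of `TF/GrpRel.lean` need no hypothesis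
on the characteristic and are cited.
-/

set_option autoImplicit false

namespace Pool.Agent.Helper40.TQ

open Pool.Agent.Helper40.TF (ex pr li ws ERel)
open Pool.Agent.Helper28.TP (Big)

private theorem ex_neg_hom {K A G : Type*} [Field K] [Ring A] [Algebra K A] [Group G] (N : ℕ) (hN : 1 ≤ N)
    (hB : Big K (2 * N)) (a : A) (ha : a ^ N = 0) (ρ : G →* A) (g : G)
    (h : ex K N a = ρ g) : ex K N (-a) = ρ g⁻¹ := by
  have h1 := Pool.Agent.Helper28.TP.ex_mul_neg (K := K) N hN hB a ha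
  rw [h] at h1
  calc ex K N (-a) = ρ g⁻¹ * ρ g * ex K N (-a) := by
        rw [← map_mul, inv_mul_cancel, map_one, one_mul]
    _ = ρ g⁻¹ := by rw [mul_assoc, h1, mul_one]

private theorem smul_pow_zero {K A : Type*} [Field K] [Ring A] [Algebra K A] (N : ℕ) (a : A) (ha : a ^ N = 0)
    (c : K) : (c • a) ^ N = 0 := by
  rw [smul_pow, ha, smul_zero]

private theorem ex_nat_hom {K A G : Type*} [Field K] [Ring A] [Algebra K A] [Group G] (N : ℕ) (hN : 1 ≤ N)
    (hB : Big K (2 * N)) (a : A) (ha : a ^ N = 0) (ρ : G →* A) (g : G)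
    (h : ex K N a = ρ g) (n : ℕ) : ex K N ((n : K) • a) = ρ (g ^ n) := by
  induction n with
  | zero => rw [Nat.cast_zero, zero_smul, Pool.Agent.Helper40.TF.ex_zero N hN, pow_zero, map_one]
  | succ n ih =>
    have e : ((n + 1 : ℕ) : K) • a = (n : K) • a + a := by
      rw [Nat.cast_add, Nat.cast_one, add_smul, one_smul]
    have hc : (n : K) • a * a = a * (n : K) • a := by
      rw [smul_mul_assoc, mul_smul_comm]
    rw [e, Pool.Agent.Helper28.TP.ex_add N hB _ _ hc (smul_pow_zero N a ha _) ha (by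
      rw [← e]
      exact smul_pow_zero N a ha _), ih, h, pow_succ, map_mul]

private theorem ex_int_hom {K A G : Type*} [Field K] [Ring A] [Algebra K A] [Group G] (N : ℕ) (hN : 1 ≤ N)
    (hB : Big K (2 * N)) (a : A) (ha : a ^ N = 0) (ρ : G →* A) (g : G)
    (h : ex K N a = ρ g) (z : ℤ) : ex K N ((z : K) • a) = ρ (g ^ z) := by
  obtain ⟨n, rfl | rfl⟩ := z.eq_nat_or_neg
  · rw [Int.cast_natCast, zpow_natCast]
    exact ex_nat_hom N hN hB a ha ρ g h n
  · rw [Int.cast_neg, Int.cast_natCast, neg_smul, zpow_neg, zpow_natCast]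
    exact ex_neg_hom N hN hB _ (smul_pow_zero N a ha _) ρ _ (ex_nat_hom N hN hB a ha ρ g h n)

private theorem pr_int' {K A ι G : Type*} [Field K] [Ring A] [Algebra K A] [Group G] (N : ℕ) (hN : 1 ≤ N)
    (hB : Big K (2 * N)) (T : ι → A) (hT : ∀ i, T i ^ N = 0) (x : ι → G) (ρ : G →* A)
    (hρ : ∀ i, ρ (x i) = ex K N (T i)) (l : List (ι × K)) (hl : ∀ p ∈ l, ∃ z : ℤ, p.2 = (z : K)) :
    ∃ g : G, pr K N T l = ρ g ∧ pr K N T (li l) = ρ g⁻¹ := by
  induction l with
  | nil =>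
    refine ⟨1, ?_, ?_⟩
    · rw [map_one]
      rfl
    · rw [inv_one, map_one]
      rfl
  | cons p l ih =>
    obtain ⟨g, hg, hg'⟩ := ih fun q hq => hl q (List.mem_cons_of_mem _ hq)
    obtain ⟨z, hz⟩ := hl p List.mem_cons_self
    have h1 : ex K N (p.2 • T p.1) = ρ (x p.1 ^ z) := by
      rw [hz]
      exact ex_int_hom N hN hB _ (hT _) ρ _ (hρ _).symm z
    have h2 : ex K N ((-p.2) • T p.1) = ρ (x p.1 ^ z)⁻¹ := by
      rw [neg_smul]
      exact ex_neg_hom N hN hB _ (smul_pow_zero N _ (hT _) _) ρ _ h1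
    refine ⟨x p.1 ^ z * g, ?_, ?_⟩
    · rw [map_mul, ← h1, ← hg]
      simp only [pr, List.map_cons, List.prod_cons]
    · rw [mul_inv_rev, map_mul, ← h2, ← hg']
      simp only [pr, li, List.map_cons, List.reverse_cons, List.map_append, List.prod_append,
        List.map_nil, List.prod_cons, List.prod_nil, mul_one]

theorem erel_of_group_p {K A ι G : Type*} [Field K] [Ring A] [Algebra K A] [Group G] (p : ℕ) [Fact p.Prime] [CharP K p] (N n : ℕ)
    (hN : 1 ≤ N) (hn : 1 ≤ n) (hp : 2 ^ (n - 1) * (N - 1) < p) (hB : Big K (2 * N)) (T : ι → A) (hT : ∀ i, T i ^ N = 0) (x : ι → G)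
    (ρ : G →* A) (hρ : ∀ i, ρ (x i) = ex K N (T i))
    (hE : ∀ i, ∀ y : G, (fun y : G => y⁻¹ * (x i)⁻¹ * y * x i)^[n] y = 1) (i : ι) : ERel K N n T (T i) := by
  refine erel_of_int_p p N n hN hn hp T (T i) (Pool.Agent.Helper28.TP.ex_mul_neg N hN hB _ (hT i))
    (Pool.Agent.Helper28.TP.ex_neg_mul N hN hB _ (hT i))
    (fun l => ⟨Pool.Agent.Helper28.TP.pr_inv N hN hB T hT l, Pool.Agent.Helper28.TP.inv_pr N hN hB T hT l⟩) ?_
  intro l hl
  obtain ⟨g, hg, hg'⟩ := pr_int' N hN hB T hT x ρ hρ l hl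
  have h1 : ex K N (T i) = ρ (x i) := (hρ i).symm
  have h2 : ex K N (-T i) = ρ (x i)⁻¹ := ex_neg_hom N hN hB _ (hT i) ρ _ h1
  rw [hg, hg', h1, h2, Pool.Agent.Helper40.TF.ws_hom]
  show ρ (Pool.Agent.Helper40.TF.wg (x i) g n) = ρ (x i)⁻¹
  rw [Pool.Agent.Helper40.TF.grp_ws (x i) g n hn (hE i g)]

end Pool.Agent.Helper40.TQ
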