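import Pool.Agent.Helper40.TQ.Defs
import Pool.Agent.Helper40.TF.UniGrp

/-!
PROJECT TQ, module TQ-7. Words.

`words_ex`: `ex K N T - 1 = T * q = q * T` with `q = ∑_{1 ≤ k < N} (1/k!) T^(k-1)`, a combination of powers `T^j`, `j ≥ 1`. Let `J m` be the `K`-span of all words in the `T i` of length `≥ m` (compare `Pool/Agent/Helper40/TF/UniGrp.lean`, where `J K T m` is used); `J a * J b ⊆ J (a + b)`,
`ex K N (T i) - 1 ∈ J 1`, so the product of `k` such factors is in `J k = 0` (words of length `≥ k` contain a word of length `k` as a factor).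
`grp_words`: the same with the additive group generated by the words in `t i = ρ (x i) - 1` of length `≥ m`: `ρ g - 1 ∈ J 1` for all `g` by `Subgroup.closure_induction`: `ρ (g h) - 1 = (ρ g - 1)(ρ h - 1) + (ρ g - 1) + (ρ h - 1)`, and for the inverses: `ρ (x i)⁻¹ - 1 = ∑_{1 ≤ j < n} (-t i)^j`
(`(t i)^n = 0`). It is convenient to do the induction for `g` and `g⁻¹` simultaneously (`ρ (g h)⁻¹ - 1 = ..`).
-/

set_option autoImplicit false

namespace Pool.Agent.Helper40.TQ

open Pool.Agent.Helper40.TF (ex)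

theorem words_ex {K A ι : Type*} [Field K] [Ring A] [Algebra K A] (N k : ℕ) (hN : 1 ≤ N) (T : ι → A) (h : Wz T k) :
    Wz (fun i => ex K N (T i) - 1) k := by
  sorry

theorem grp_words {E ι G : Type*} [Ring E] [Group G] (n k : ℕ) (x : ι → G) (hx : Subgroup.closure (Set.range x) = ⊤) (ρ : G →* E)
    (hn : ∀ i, (ρ (x i) - 1) ^ n = 0) (h : Wz (fun i => ρ (x i) - 1) k) (l : List G) (hl : l.length = k) :
    (l.map fun g => ρ g - 1).prod = 0 := by
  sorry

end Pool.Agent.Helper40.TQ
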