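import Pool.Agent.Helper40.TQ.RatRing
import Pool.Agent.Helper40.TQ.ExtK
import Pool.Agent.Helper40.TQ.GrpRelP
import Pool.Agent.Helper40.TQ.WordsQ
import Pool.Agent.Helper40.TQ.LogQ
import Pool.Agent.Helper40.TF.AssocMain

/-!
PROJECT TQ. The torsion-free case and the case of characteristic `p`.
-/

set_option autoImplicit false

namespace Pool.Agent.Helper40.TQ

open Pool.Agent.Helper40.TF (ex pr li ws ERel)
open Pool.Agent.Helper28.TP (Big)

theorem wz_of_alg {K S A ι G : Type} [Field K] [Infinite K] [Ring S] [Ring A] [Algebra K A] [Group G] [Finite ι] (n : ℕ) (hn : 2 ≤ n)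
    (hB : Big K (6 * n + 4)) (Φ : S →+* A) (hΦ : Function.Injective Φ) (x : ι → G) (ρ : G →* S)
    (hρ : ∀ i, (ρ (x i) - 1) ^ n = 0)
    (hER : ∀ (T : ι → A), (∀ i, T i ^ n = 0) → ∀ ρ' : G →* A, (∀ i, ρ' (x i) = ex K n (T i)) → ∀ i, ERel K n n T (T i)) :
    ∃ k, Wz (fun i => ρ (x i) - 1) k := by
  let ρ' : G →* A := (Φ : S →* A).comp ρ
  have hρ' : ∀ g, ρ' g = Φ (ρ g) := fun g => rfl
  have hρn : ∀ i, (ρ' (x i) - 1) ^ n = 0 := by
    intro i
    rw [hρ', ← map_one Φ, ← map_sub, ← map_pow, hρ i, map_zero]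
  choose T hTn hTe using fun i => exists_log (K := K) n (by omega) (ρ' (x i)) (hρn i)
  obtain ⟨k, hk⟩ := Pool.Agent.Helper28.TP.assoc_main (K := K) n n (by omega) hB hn T hTn (hER T hTn ρ' fun i => (hTe i).symm)
  refine ⟨k, fun l hl => ?_⟩
  have h1 := words_ex (K := K) n k (by omega) T hk l hl
  apply hΦ
  rw [map_zero, map_list_prod, List.map_map, ← h1]
  congr 1
  apply List.map_congr_left
  intro i _
  change Φ (ρ (x i) - 1) = ex K n (T i) - 1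
  rw [hTe i, map_sub, map_one, hρ']

theorem zero_case {S ι G : Type} [Ring S] [Group G] [Finite ι] (n : ℕ) (hn : 2 ≤ n) (x : ι → G) (ρ : G →* S)
    (hρ : ∀ i, (ρ (x i) - 1) ^ n = 0) (hE : ∀ i, ∀ y : G, (fun y : G => y⁻¹ * (x i)⁻¹ * y * x i)^[n] y = 1)
    (h : ∀ p : ℕ, p.Prime → ∀ s : S, (p : S) * s = 0 → s = 0) : ∃ k, Wz (fun i => ρ (x i) - 1) k := by
  obtain ⟨A, iA, iA', Φ, hΦ⟩ := exists_ratRing S h
  exact wz_of_alg (K := ℚ) n hn (Big.charZero _) Φ hΦ x ρ hρ fun T hT ρ' hρ' i =>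
    Pool.Agent.Helper40.TF.erel_of_group n n (by omega) (by omega) T hT x ρ' hρ' hE i

theorem prime_case {S ι G : Type} [Ring S] [Nontrivial S] [Group G] [Finite ι] (n : ℕ) (hn : 2 ≤ n) (x : ι → G) (ρ : G →* S)
    (hρ : ∀ i, (ρ (x i) - 1) ^ n = 0) (hE : ∀ i, ∀ y : G, (fun y : G => y⁻¹ * (x i)⁻¹ * y * x i)^[n] y = 1)
    (p : ℕ) [Fact p.Prime] (hp : bd n < p) (h : (p : S) = 0) : ∃ k, Wz (fun i => ρ (x i) - 1) k := by
  obtain ⟨K, iK, iI, iC, A, iA, iA', Φ, hΦ⟩ := exists_ext p S h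
  have h1 : 6 * n + 4 < p := by
    refine lt_of_le_of_lt ?_ hp
    unfold bd
    rcases Nat.lt_or_ge n 4 with h4 | h4
    · interval_cases n <;> norm_num
    · have h8 : 2 ^ 3 ≤ 2 ^ (n - 1) := Nat.pow_le_pow_right (by omega) (by omega)
      have h9 : (n - 1) * 2 ^ 3 ≤ (n - 1) * 2 ^ (n - 1) := Nat.mul_le_mul_left _ h8
      omega
  have h2 : 2 ^ (n - 1) * (n - 1) < p := by
    refine lt_of_le_of_lt ?_ hp
    unfold bd
    rw [mul_comm (n - 1)]
    omega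
  exact wz_of_alg (K := K) n hn (Big.charP p _ h1) Φ hΦ x ρ hρ fun T hT ρ' hρ' i =>
    erel_of_group_p p n n (by omega) (by omega) h2 (Big.charP p _ (by omega)) T hT x ρ' hρ' hE i

end Pool.Agent.Helper40.TQ
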