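import Pool.Agent.Helper28.TP.AssocMain

/-!
PROJECT TQ (MP_629dac_al), group part of the upgrade TP: the excluded primes depend on `n` only. Memo /team-store/memo_TP_helper40.md.
`Wz t m`: all words of length `m` in the elements `t i` of the ring vanish.
-/

set_option autoImplicit false

namespace Pool.Agent.Helper40.TQ

/-- All words of length `m` in the `t i` vanish. -/
def Wz {E ι : Type*} [Ring E] (t : ι → E) (m : ℕ) : Prop := ∀ l : List ι, l.length = m → (l.map t).prod = 0

/-- The excluded primes are at most `bd n`. -/
def bd (n : ℕ) : ℕ := (n - 1) * 2 ^ (n - 1) + 14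

/-- `f` is a polynomial function of degree at most `D`. -/
def PD {K V : Type*} [Field K] [AddCommGroup V] [Module K V] (D : ℕ) (f : K → V) : Prop :=
  ∃ p : ℕ → V, ∀ t, f t = ∑ i ∈ Finset.range (D + 1), t ^ i • p i

end Pool.Agent.Helper40.TQ
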