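import Pool.Agent.Helper40.TQ.Defs
import Pool.Agent.Helper40.TF.Dense

/-!
PROJECT TQ, module TQ-5. Integer exponents suffice also in characteristic `p`, if the degree is smaller than `p`.

`PD D f` (Defs): `f` polynomial of degree `≤ D`. Closure: constants have degree `0`, sums and products (`PD.mul`: degrees add; Cauchy product or double sum), monotone in `D`. `t ↦ ex K N (t • a)` has degree `≤ N - 1` (`N ≥ 1`).
`PD.zero_of_int`: `f` of degree `≤ D < p`, `f z = 0` for all integers `z`: apply functionals (`Module.forall_dual_apply_eq_zero_iff K`) to get a polynomial over `K` of degree `≤ D` with the `p` distinct roots `0, 1, …, p - 1` (`CharP`: the casts of naturals `< p` are distinct), so it is zero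
(`Polynomial.card_roots'` or `Polynomial.eq_zero_of_natDegree_lt_card_of_eval_eq_zero`).
`erel_of_int_p`: follow `Pool/Agent/Helper40/TF/Dense.lean` (`erel_of_int`): change the exponents one after the other. With `w_k` the components of `ws` for `v = ex a`, `v' = ex (-a)`, `y = pr (l₁ ++ [(i, t)] ++ l₂)`, `y' = pr (li (..))`: `y, y'` have degree `≤ N - 1` in `t`, both components of `ws .. k` have degree
`≤ 2 ^ k (N - 1)`. To save a factor `2` use: by `hinv` (`y y' = y' y = 1` for all lists, from `pr_inv`, `inv_pr`) and `ws_inv` the relation `w_n = w_(n-1)' v' w_(n-1) = v'` is equivalent to `v' w_(n-1) = w_(n-1) v'`, and the difference of the two sides has degree `≤ 2 ^ (n-1) (N-1) < p` in `t` and vanishes for integers `t`.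
-/

set_option autoImplicit false

namespace Pool.Agent.Helper40.TQ

open Pool.Agent.Helper40.TF (ex pr li ws ERel)

section

variable {K A ι : Type*} [Field K] [Ring A] [Algebra K A]

private theorem ev_C' (t : K) (a : A) : TF.ev K t (Polynomial.C a) = a := by
  show Polynomial.eval₂ (RingHom.id A) (algebraMap K A t) (Polynomial.C a) = a
  rw [Polynomial.eval₂_C, RingHom.id_apply]

private theorem ev_X' (t : K) : TF.ev K t (Polynomial.X : Polynomial A) = algebraMap K A t := by
  show Polynomial.eval₂ (RingHom.id A) (algebraMap K A t) Polynomial.X = algebraMap K A t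
  rw [Polynomial.eval₂_X]

/-- Polynomial function of degree at most `D`, polynomial form. -/
private def PE (D : ℕ) (f : K → A) : Prop :=
  ∃ P : Polynomial A, P.natDegree ≤ D ∧ ∀ t, f t = TF.ev K t P

private theorem PE.toPD {D : ℕ} {f : K → A} (hf : PE D f) : PD D f := by
  obtain ⟨P, hP, h⟩ := hf
  refine ⟨fun i => P.coeff i, fun t => ?_⟩
  rw [h]
  show Polynomial.eval₂ (RingHom.id A) (algebraMap K A t) P = _
  rw [Polynomial.eval₂_eq_sum_range' (RingHom.id A) (Nat.lt_succ_of_le hP)]
  refine Finset.sum_congr rfl fun i _ => ?_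
  rw [RingHom.id_apply, ← map_pow, ← Algebra.commutes, ← Algebra.smul_def]

private theorem PE.const (D : ℕ) (a : A) : PE D (fun _ : K => a) :=
  ⟨Polynomial.C a, by rw [Polynomial.natDegree_C]; exact Nat.zero_le _, fun t => (ev_C' t a).symm⟩

private theorem PE.mul {D E : ℕ} {f g : K → A} (hf : PE D f) (hg : PE E g) :
    PE (D + E) (fun t => f t * g t) := by
  obtain ⟨P, hP, h⟩ := hf
  obtain ⟨Q, hQ, h'⟩ := hg
  refine ⟨P * Q, Polynomial.natDegree_mul_le.trans (Nat.add_le_add hP hQ), fun t => ?_⟩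
  show f t * g t = _
  rw [h, h', map_mul]

private theorem PE.sub {D : ℕ} {f g : K → A} (hf : PE D f) (hg : PE D g) :
    PE D (fun t => f t - g t) := by
  obtain ⟨P, hP, h⟩ := hf
  obtain ⟨Q, hQ, h'⟩ := hg
  refine ⟨P - Q, (Polynomial.natDegree_sub_le P Q).trans (max_le hP hQ), fun t => ?_⟩
  show f t - g t = _
  rw [h, h', map_sub]

private theorem PE_ex (N : ℕ) (x : A) : PE (N - 1) (fun t : K => ex K N (t • x)) := by
  refine ⟨∑ k ∈ Finset.range N, Polynomial.C (((k.factorial : K)⁻¹) • x ^ k) * Polynomial.X ^ k, ?_, fun t => ?_⟩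
  · refine Polynomial.natDegree_sum_le_of_forall_le _ _ fun k hk => ?_
    have h1 := Polynomial.natDegree_C_mul_X_pow_le ((((k.factorial : K)⁻¹) • x ^ k) : A) k
    have h2 := Finset.mem_range.1 hk
    omega
  · show (∑ k ∈ Finset.range N, ((k.factorial : K)⁻¹) • (t • x) ^ k) = _
    rw [map_sum]
    refine Finset.sum_congr rfl fun k _ => ?_
    rw [map_mul, map_pow, ev_C', ev_X', smul_pow, ← map_pow, ← Algebra.commutes, ← Algebra.smul_def,
      smul_comm]

private theorem pr_append' (N : ℕ) (T : ι → A) (l l' : List (ι × K)) :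
    pr K N T (l ++ l') = pr K N T l * pr K N T l' := by
  unfold pr
  rw [List.map_append, List.prod_append]

private theorem li_append' (l l' : List (ι × K)) : li (l ++ l') = li l' ++ li l := by
  unfold li
  rw [List.map_append, List.reverse_append]

private theorem pr_mid (N : ℕ) (T : ι → A) (l₁ l₂ : List (ι × K)) (i : ι) (t : K) :
    pr K N T ((l₁ ++ [(i, t)]) ++ l₂) = pr K N T l₁ * ex K N (t • T i) * pr K N T l₂ := by
  rw [pr_append', pr_append']
  congr 2
  simp [pr]

private theorem pr_li_mid (N : ℕ) (T : ι → A) (l₁ l₂ : List (ι × K)) (i : ι) (t : K) :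
    pr K N T (li ((l₁ ++ [(i, t)]) ++ l₂)) =
      pr K N T (li l₂) * (ex K N (t • (-T i)) * pr K N T (li l₁)) := by
  rw [li_append', li_append', pr_append', pr_append']
  congr 2
  simp [pr, li]

private theorem ws_inv' (v v' y y' : A) (hv : v * v' = 1) (hv' : v' * v = 1) (hy : y * y' = 1)
    (hy' : y' * y = 1) (n : ℕ) :
    (ws v v' y y' n).1 * (ws v v' y y' n).2 = 1 ∧ (ws v v' y y' n).2 * (ws v v' y y' n).1 = 1 := by
  induction n with
  | zero => exact ⟨hy, hy'⟩
  | succ n ih =>
    obtain ⟨h1, h2⟩ := ih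
    show ((ws v v' y y' n).2 * v' * (ws v v' y y' n).1) * ((ws v v' y y' n).2 * v * (ws v v' y y' n).1) = 1 ∧
      ((ws v v' y y' n).2 * v * (ws v v' y y' n).1) * ((ws v v' y y' n).2 * v' * (ws v v' y y' n).1) = 1
    generalize (ws v v' y y' n).1 = x at h1 h2 ⊢
    generalize (ws v v' y y' n).2 = z at h1 h2 ⊢
    constructor
    · calc z * v' * x * (z * v * x) = z * v' * (x * z) * v * x := by simp only [mul_assoc]
        _ = z * (v' * v) * x := by rw [h1]; simp only [mul_one, mul_assoc]
        _ = 1 := by rw [hv', mul_one, h2]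
    · calc z * v * x * (z * v' * x) = z * v * (x * z) * v' * x := by simp only [mul_assoc]
        _ = z * (v * v') * x := by rw [h1]; simp only [mul_one, mul_assoc]
        _ = 1 := by rw [hv, mul_one, h2]

private theorem PE_ws (v v' : A) (y y' : K → A) (D : ℕ) (hy : PE D y) (hy' : PE D y') (n : ℕ) :
    PE (2 ^ n * D) (fun t => (ws v v' (y t) (y' t) n).1) ∧
      PE (2 ^ n * D) (fun t => (ws v v' (y t) (y' t) n).2) := by
  induction n with
  | zero =>
    rw [pow_zero, one_mul]
    exact ⟨hy, hy'⟩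
  | succ n ih =>
    have he : 2 ^ (n + 1) * D = 2 ^ n * D + 0 + 2 ^ n * D := by ring
    rw [he]
    exact ⟨(ih.2.mul (PE.const 0 v')).mul ih.1, (ih.2.mul (PE.const 0 v)).mul ih.1⟩

private theorem rel_iff (v v' x z : A) (h1 : x * z = 1) (h2 : z * x = 1) :
    z * v' * x = v' ↔ v' * x = x * v' := by
  constructor
  · intro h
    calc v' * x = x * z * (v' * x) := by rw [h1, one_mul]
      _ = x * (z * v' * x) := by simp only [mul_assoc]
      _ = x * v' := by rw [h]
  · intro h
    rw [mul_assoc, h, ← mul_assoc, h2, one_mul]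

end

theorem PD.zero_of_int {K V : Type*} [Field K] [AddCommGroup V] [Module K V] (p : ℕ) [Fact p.Prime] [CharP K p] (D : ℕ) (hD : D < p)
    (f : K → V) (hf : PD D f) (h : ∀ z : ℤ, f (z : K) = 0) (t : K) : f t = 0 := by
  obtain ⟨q, hq⟩ := hf
  rw [← Module.forall_dual_apply_eq_zero_iff K]
  intro φ
  have he : ∀ s : K, Polynomial.eval s
      (∑ j ∈ Finset.range (D + 1), Polynomial.C (φ (q j)) * Polynomial.X ^ j : Polynomial K) = φ (f s) := by
    intro s
    rw [hq, map_sum, Polynomial.eval_finsetSum]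
    refine Finset.sum_congr rfl fun j _ => ?_
    rw [map_smul, smul_eq_mul, Polynomial.eval_mul, Polynomial.eval_C, Polynomial.eval_pow,
      Polynomial.eval_X, mul_comm]
  have hdeg : (∑ j ∈ Finset.range (D + 1), Polynomial.C (φ (q j)) * Polynomial.X ^ j : Polynomial K).natDegree ≤ D := by
    refine Polynomial.natDegree_sum_le_of_forall_le _ _ fun k hk => ?_
    have h1 := Polynomial.natDegree_C_mul_X_pow_le (φ (q k)) k
    have h2 := Finset.mem_range.1 hk
    omega
  have hz : (∑ j ∈ Finset.range (D + 1), Polynomial.C (φ (q j)) * Polynomial.X ^ j : Polynomial K) = 0 := by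
    refine Polynomial.eq_zero_of_natDegree_lt_card_of_eval_eq_zero _ (f := fun i : Fin p => ((i : ℕ) : K)) ?_ ?_ ?_
    · intro i j hij
      have h1 : ((i : ℕ) : K) = ((j : ℕ) : K) := hij
      have h2 := (CharP.natCast_eq_natCast K p).1 h1
      exact Fin.ext (Nat.ModEq.eq_of_lt_of_lt h2 i.2 j.2)
    · intro i
      show Polynomial.eval ((i : ℕ) : K) _ = 0
      rw [he]
      have h1 := h ((i : ℕ) : ℤ)
      rw [Int.cast_natCast] at h1
      rw [h1, map_zero]
    · rw [Fintype.card_fin]
      exact lt_of_le_of_lt hdeg hD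
  rw [← he, hz, Polynomial.eval_zero]

theorem erel_of_int_p {K A ι : Type*} [Field K] [Ring A] [Algebra K A] (p : ℕ) [Fact p.Prime] [CharP K p] (N n : ℕ) (hN : 1 ≤ N) (hn : 1 ≤ n)
    (hp : 2 ^ (n - 1) * (N - 1) < p) (T : ι → A) (a : A) (ha : ex K N a * ex K N (-a) = 1) (ha' : ex K N (-a) * ex K N a = 1)
    (hinv : ∀ l : List (ι × K), pr K N T l * pr K N T (li l) = 1 ∧ pr K N T (li l) * pr K N T l = 1)
    (h : ∀ l : List (ι × K), (∀ q ∈ l, ∃ z : ℤ, q.2 = (z : K)) →
      (ws (ex K N a) (ex K N (-a)) (pr K N T l) (pr K N T (li l)) n).1 = ex K N (-a)) :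
    ERel K N n T a := by
  obtain ⟨m, rfl⟩ : ∃ m, n = m + 1 := ⟨n - 1, by omega⟩
  rw [Nat.add_sub_cancel] at hp
  have hrel : ∀ l : List (ι × K),
      ((ws (ex K N a) (ex K N (-a)) (pr K N T l) (pr K N T (li l)) (m + 1)).1 = ex K N (-a)) ↔
      ex K N (-a) * (ws (ex K N a) (ex K N (-a)) (pr K N T l) (pr K N T (li l)) m).1 =
        (ws (ex K N a) (ex K N (-a)) (pr K N T l) (pr K N T (li l)) m).1 * ex K N (-a) := by
    intro l
    obtain ⟨h1, h2⟩ := ws_inv' (ex K N a) (ex K N (-a)) (pr K N T l) (pr K N T (li l)) ha ha'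
      (hinv l).1 (hinv l).2 m
    exact rel_iff (ex K N a) (ex K N (-a)) _ _ h1 h2
  have key : ∀ l₁ : List (ι × K), ∀ l₂ : List (ι × K), (∀ q ∈ l₂, ∃ z : ℤ, q.2 = (z : K)) →
      ex K N (-a) * (ws (ex K N a) (ex K N (-a)) (pr K N T (l₁ ++ l₂)) (pr K N T (li (l₁ ++ l₂))) m).1 =
        (ws (ex K N a) (ex K N (-a)) (pr K N T (l₁ ++ l₂)) (pr K N T (li (l₁ ++ l₂))) m).1 * ex K N (-a) := by
    intro l₁
    induction l₁ using List.reverseRecOn with
    | nil =>
      intro l₂ h₂
      exact (hrel _).1 (h l₂ h₂)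
    | append_singleton l₁ q ih =>
      obtain ⟨i, c⟩ := q
      intro l₂ h₂
      have h1 : PE (N - 1) (fun t : K => pr K N T ((l₁ ++ [(i, t)]) ++ l₂)) := by
        simp only [pr_mid]
        have h3 := ((PE.const (K := K) 0 (pr K N T l₁)).mul (PE_ex N (T i))).mul (PE.const 0 (pr K N T l₂))
        rwa [zero_add, add_zero] at h3
      have h2 : PE (N - 1) (fun t : K => pr K N T (li ((l₁ ++ [(i, t)]) ++ l₂))) := by
        simp only [pr_li_mid]
        have h3 := (PE.const (K := K) 0 (pr K N T (li l₂))).mul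
          ((PE_ex N (-T i)).mul (PE.const 0 (pr K N T (li l₁))))
        rwa [zero_add, add_zero] at h3
      have hP := (PE_ws (ex K N a) (ex K N (-a)) _ _ _ h1 h2 m).1
      have hL := (PE.const (K := K) 0 (ex K N (-a))).mul hP
      have hR := hP.mul (PE.const (K := K) 0 (ex K N (-a)))
      rw [zero_add] at hL
      rw [add_zero] at hR
      have hQ := (hL.sub hR).toPD
      have hz := PD.zero_of_int p _ hp _ hQ (fun z => by
        have h3 := ih ((i, (z : K)) :: l₂) (by
          intro q hq
          rcases List.mem_cons.1 hq with rfl | hq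
          · exact ⟨z, rfl⟩
          · exact h₂ q hq)
        have h4 : l₁ ++ (i, (z : K)) :: l₂ = (l₁ ++ [(i, (z : K))]) ++ l₂ := by simp
        rw [h4] at h3
        exact sub_eq_zero.2 h3) c
      exact sub_eq_zero.1 hz
  intro l
  have h5 := key l [] (by simp)
  rw [List.append_nil] at h5
  exact (hrel l).2 h5

end Pool.Agent.Helper40.TQ
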