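import Pool.Agent.Helper40.TQ.GroupMain
import Pool.Agent.Helper40.TF.PiTors

/-!
PROJECT TQ. Final form: the torsion of `γ_(f+1)` involves only primes `≤ (n - 1) 2 ^ (n - 1) + 14`.
-/

set_option autoImplicit false

namespace Pool.Agent.Helper40.TQ

open Pool.Agent.Helper40.TF (exists_piTors)

private theorem small_case (n : ℕ) (hn : n ≤ 1) (G : Type) [Group G] (S : Finset G)
    (hS : Subgroup.closure (S : Set G) = ⊤) (hE : ∀ a ∈ S, ∀ x : G, (fun y : G => y⁻¹ * a⁻¹ * y * a)^[n] x = 1) :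
    Subgroup.upperCentralSeries G 1 = ⊤ := by
  rw [Subgroup.upperCentralSeries_one, eq_top_iff, ← hS, Subgroup.closure_le]
  intro a ha
  rw [SetLike.mem_coe, Subgroup.mem_center_iff]
  intro g
  rcases Nat.le_one_iff_eq_zero_or_eq_one.1 hn with h | h
  · subst h
    have h1 : ∀ x : G, x = 1 := fun x => hE a ha x
    rw [h1 a, mul_one, one_mul]
  · subst h
    have h1 : g⁻¹ * a⁻¹ * g * a = 1 := hE a ha g
    have h2 : g * a = a * g := by
      calc g * a = a * g * (g⁻¹ * a⁻¹ * g * a) := by group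
        _ = a * g := by rw [h1, mul_one]
    exact h2

theorem group_finset (n d : ℕ) : ∃ c : ℕ, ∀ (G : Type) [Group G] [Group.IsNilpotent G] (S : Finset G),
    S.card ≤ d → Subgroup.closure (S : Set G) = ⊤ →
    (∀ a ∈ S, ∀ x : G, (fun y : G => y⁻¹ * a⁻¹ * y * a)^[n] x = 1) →
    (∀ p, p ≤ bd n → p.Prime → ∀ g : G, g ^ p = 1 → g = 1) → Group.nilpotencyClass G ≤ c := by
  rcases Nat.lt_or_ge n 2 with hn | hn
  · refine ⟨1, ?_⟩
    intro G _ _ S _ hS hE _
    exact Subgroup.upperCentralSeries_eq_top_iff_nilpotencyClass_le.mp (small_case n (by omega) G S hS hE)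
  · obtain ⟨c, hc⟩ := group_main n d hn
    refine ⟨c, ?_⟩
    intro G _ _ S hd hS hE ht
    obtain ⟨e⟩ : Nonempty (Fin S.card ≃ S) := ⟨S.equivFin.symm⟩
    let x : Fin d → G := fun i => if h : (i : ℕ) < S.card then (e ⟨i, h⟩ : G) else 1
    have hx : Subgroup.closure (Set.range x) = ⊤ := by
      rw [eq_top_iff, ← hS, Subgroup.closure_le]
      intro a ha
      apply Subgroup.subset_closure
      let j : Fin S.card := e.symm ⟨a, ha⟩
      refine ⟨⟨j, lt_of_lt_of_le j.2 hd⟩, ?_⟩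
      change (if h : (j : ℕ) < S.card then (e ⟨j, h⟩ : G) else 1) = a
      rw [dif_pos j.2]
      change ((e (e.symm ⟨a, ha⟩) : S) : G) = a
      rw [e.apply_symm_apply]
    refine hc G x hx ?_ ht
    intro i z
    by_cases h : (i : ℕ) < S.card
    · have hxi : x i = (e ⟨i, h⟩ : G) := dif_pos h
      rw [hxi]
      exact hE _ (e ⟨i, h⟩).2 z
    · have hxi : x i = 1 := dif_neg h
      rw [hxi]
      obtain ⟨k, rfl⟩ := Nat.exists_eq_add_of_le' (le_trans (by norm_num) hn : 1 ≤ n)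
      rw [Function.iterate_add_apply]
      have h1 : (fun y : G => y⁻¹ * (1 : G)⁻¹ * y * 1)^[1] z = 1 := by simp
      rw [h1]
      exact Function.iterate_fixed (by simp) k

theorem final3 : ∃ f : ℕ → ℕ → ℕ, ∀ (n d : ℕ) (G : Type) [Group G] [Group.IsNilpotent G] (S : Finset G),
    S.card ≤ d → Subgroup.closure (S : Set G) = ⊤ →
    (∀ a ∈ S, ∀ x : G, (fun y : G => y⁻¹ * a⁻¹ * y * a)^[n] x = 1) →
    ∀ g ∈ (⊤ : Subgroup G).lowerCentralSeries (f n d),
      ∃ e : ℕ, 0 < e ∧ (∀ p, p.Prime → p ∣ e → p ≤ (n - 1) * 2 ^ (n - 1) + 14) ∧ g ^ e = 1 := by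
  classical
  choose f h using group_finset
  refine ⟨f, ?_⟩
  intro n d G _ _ S hd hS hE g hg
  obtain ⟨T, hT, h1, h2⟩ := exists_piTors (bd n) G
  have hcl : Group.nilpotencyClass (G ⧸ T) ≤ f n d := by
    refine h n d (G ⧸ T) (S.image (QuotientGroup.mk' T)) (Finset.card_image_le.trans hd) ?_ ?_ h2
    · rw [Finset.coe_image, ← MonoidHom.map_closure, hS]
      exact Subgroup.map_top_of_surjective _ (QuotientGroup.mk'_surjective T)
    · intro b hb x
      obtain ⟨a, ha, rfl⟩ := Finset.mem_image.1 hb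
      obtain ⟨y, rfl⟩ := QuotientGroup.mk'_surjective T x
      have hsemi : Function.Semiconj (QuotientGroup.mk' T)
          (fun y : G => y⁻¹ * a⁻¹ * y * a)
          (fun y : G ⧸ T => y⁻¹ * (QuotientGroup.mk' T a)⁻¹ * y * QuotientGroup.mk' T a) := by
        intro y
        simp only [map_mul, map_inv]
      have h3 := (hsemi.iterate_right n) y
      rw [← h3, hE a ha y, map_one]
  apply h1 g
  have hbot : (⊤ : Subgroup (G ⧸ T)).lowerCentralSeries (f n d) = ⊥ :=
    Subgroup.lowerCentralSeries_eq_bot_iff_nilpotencyClass_le.2 hcl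
  have hmap : QuotientGroup.mk' T g ∈ (⊤ : Subgroup (G ⧸ T)).lowerCentralSeries (f n d) := by
    have := Subgroup.lowerCentralSeries.map (QuotientGroup.mk' T) (f n d)
    exact this (Subgroup.mem_map_of_mem _ hg)
  rw [hbot, Subgroup.mem_bot] at hmap
  exact (QuotientGroup.eq_one_iff g).1 hmap

end Pool.Agent.Helper40.TQ
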