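import Pool.Agent.Helper40.TQ.Defs

/-!
PROJECT TQ, module TQ-1. Localisation of a (noncommutative) ring at the primes `≤ P`.

`k = Localization.Away ((P.factorial : ℤ))`, `E = TensorProduct ℤ k R` (ring structure `Algebra.TensorProduct`), `Φ = Algebra.TensorProduct.includeRight` as a ring homomorphism. `r ↦ 1 ⊗ r` is the localised module map
(`IsLocalizedModule (Submonoid.powers _) (TensorProduct.mk ℤ k R 1)`, search for the instance), and `IsLocalizedModule.eq_zero_iff`: `1 ⊗ r = 0` iff `(P!)^j • r = 0` for some `j`; every prime factor of `P!` is `≤ P`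
and multiplication by it is injective, so `r = 0`. A prime `p ≤ P` divides `P!`, which is a unit in `k` and so in `E`.
(Other constructions of `E` are fine, e.g. any colimit or `OreLocalization` at the central submonoid of powers of `P!`.)
-/

set_option autoImplicit false

namespace Pool.Agent.Helper40.TQ

private theorem loc_le (P : ℕ) (R : Type) [Ring R]
    (h : ∀ p : ℕ, p.Prime → p ≤ P → ∀ r : R, (p : R) * r = 0 → r = 0) :
    ∀ n : ℕ, 0 < n → n ≤ P → ∀ r : R, (n : R) * r = 0 → r = 0 := by
  intro n
  induction n using Nat.strong_induction_on with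
  | _ n ih =>
    intro hn hnP r hr
    by_cases h1 : n = 1
    · rw [h1, Nat.cast_one, one_mul] at hr
      exact hr
    · have hp := Nat.minFac_prime h1
      have hd := Nat.minFac_dvd n
      obtain ⟨k, hk⟩ := hd
      have hk0 : 0 < k := by
        rcases Nat.eq_zero_or_pos k with hk0 | hk0
        · rw [hk0, Nat.mul_zero] at hk
          omega
        · exact hk0
      have hkn : k < n := by
        calc k < n.minFac * k := by nlinarith [hp.two_le]
          _ = n := hk.symm
      have h2 : (n.minFac : R) * ((k : R) * r) = 0 := by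
        rw [← mul_assoc, ← Nat.cast_mul, ← hk]
        exact hr
      exact ih k hkn hk0 (by omega) r (h _ hp (le_trans (Nat.minFac_le hn) hnP) _ h2)

private theorem loc_fact (P : ℕ) (R : Type) [Ring R]
    (h : ∀ p : ℕ, p.Prime → p ≤ P → ∀ r : R, (p : R) * r = 0 → r = 0) :
    ∀ n : ℕ, n ≤ P → ∀ r : R, (n.factorial : R) * r = 0 → r = 0 := by
  intro n
  induction n with
  | zero =>
    intro _ r hr
    rw [Nat.factorial_zero, Nat.cast_one, one_mul] at hr
    exact hr
  | succ n ih =>
    intro hn r hr
    rw [Nat.factorial_succ, Nat.cast_mul, mul_assoc] at hr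
    exact ih (by omega) r (loc_le P R h (n + 1) (by omega) hn _ hr)

private theorem loc_pow (P : ℕ) (R : Type) [Ring R]
    (h : ∀ p : ℕ, p.Prime → p ≤ P → ∀ r : R, (p : R) * r = 0 → r = 0) :
    ∀ (j : ℕ) (r : R), ((P.factorial : ℤ) ^ j) • r = 0 → r = 0 := by
  intro j
  induction j with
  | zero =>
    intro r hr
    rw [pow_zero, one_smul] at hr
    exact hr
  | succ j ih =>
    intro r hr
    rw [pow_succ, mul_smul] at hr
    have h1 := ih _ hr
    apply loc_fact P R h P le_rfl r
    rw [zsmul_eq_mul, Int.cast_natCast] at h1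
    exact h1

theorem exists_loc (P : ℕ) (R : Type) [Ring R] (h : ∀ p : ℕ, p.Prime → p ≤ P → ∀ r : R, (p : R) * r = 0 → r = 0) :
    ∃ (E : Type) (_ : Ring E) (Φ : R →+* E), Function.Injective Φ ∧ ∀ p : ℕ, p.Prime → p ≤ P → ∃ q : E, (p : E) * q = 1 := by
  let Φ : R →+* LocalizedModule (Submonoid.powers (P.factorial : ℤ)) R :=
    { toFun := fun r => LocalizedModule.mk r 1
      map_one' := by rw [OreLocalization.one_def]
      map_mul' := fun a b => by rw [LocalizedModule.mk_mul_mk, one_mul]
      map_zero' := LocalizedModule.zero_mk 1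
      map_add' := fun a b => by rw [LocalizedModule.mk_add_mk, one_smul, one_smul, one_mul] }
  refine ⟨LocalizedModule (Submonoid.powers (P.factorial : ℤ)) R, inferInstance, Φ, ?_, ?_⟩
  · rw [injective_iff_map_eq_zero]
    intro r hr
    have h1 : (LocalizedModule.mk r 1 : LocalizedModule (Submonoid.powers (P.factorial : ℤ)) R)
        = LocalizedModule.mk 0 1 := by
      rw [LocalizedModule.zero_mk]
      exact hr
    rw [LocalizedModule.mk_eq] at h1
    obtain ⟨⟨c, j, rfl⟩, hc⟩ := h1
    rw [one_smul, one_smul, smul_zero] at hc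
    exact loc_pow P R h j r hc
  · intro p hp hpP
    obtain ⟨m, hm⟩ := (Nat.Prime.dvd_factorial hp).2 hpP
    refine ⟨LocalizedModule.mk (m : R) ⟨(P.factorial : ℤ), Submonoid.mem_powers _⟩, ?_⟩
    have h4 : ((p : ℕ) : LocalizedModule (Submonoid.powers (P.factorial : ℤ)) R)
        = LocalizedModule.mk (p : R) 1 := (map_natCast Φ p).symm
    rw [h4, LocalizedModule.mk_mul_mk, one_mul, ← Nat.cast_mul, ← hm]
    have h5 := LocalizedModule.mk_cancel
      (⟨(P.factorial : ℤ), Submonoid.mem_powers _⟩ : Submonoid.powers (P.factorial : ℤ)) (1 : R)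
    have h6 : ((⟨(P.factorial : ℤ), Submonoid.mem_powers _⟩ :
        Submonoid.powers (P.factorial : ℤ)) • (1 : R)) = (P.factorial : R) := by
      change (P.factorial : ℤ) • (1 : R) = (P.factorial : R)
      rw [zsmul_eq_mul, mul_one, Int.cast_natCast]
    rw [h6] at h5
    rw [h5, OreLocalization.one_def]

end Pool.Agent.Helper40.TQ
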