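import Pool.Agent.Helper40.TQ.Defs

/-!
PROJECT TQ, module TQ-2. A torsion-free ring embeds in a `ℚ`-algebra.

`A = TensorProduct ℤ ℚ R`, `Φ = Algebra.TensorProduct.includeRight`; compare `Pool/Agent/Helper40/TF/RatRep.lean` (`exists_rat`), where the same is done for `Module.End ℤ B`: `R` is torsion-free over `ℤ`, so flat, and `ℤ → ℚ` is injective
(`Algebra.TensorProduct.includeRight_injective` or `IsLocalizedModule.eq_zero_iff`).
-/

set_option autoImplicit false

namespace Pool.Agent.Helper40.TQ

theorem exists_ratRing (R : Type) [Ring R] (h : ∀ p : ℕ, p.Prime → ∀ r : R, (p : R) * r = 0 → r = 0) :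
    ∃ (A : Type) (_ : Ring A) (_ : Algebra ℚ A) (Φ : R →+* A), Function.Injective Φ := by
  have hk : ∀ k : ℕ, k ≠ 0 → ∀ r : R, (k : R) * r = 0 → r = 0 := by
    intro k
    induction k using Nat.recOnMul with
    | zero => intro h0; exact absurd rfl h0
    | one => intro _ r hr; simpa using hr
    | prime p hp => intro _ r hr; exact h p hp r hr
    | mul a b ha hb =>
      intro h0 r hr
      have ha0 : a ≠ 0 := fun e => h0 (by rw [e, zero_mul])
      have hb0 : b ≠ 0 := fun e => h0 (by rw [e, mul_zero])
      rw [Nat.cast_mul, mul_assoc] at hr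
      exact hb hb0 r (ha ha0 _ hr)
  have htf : Module.IsTorsionFree ℤ R := by
    refine ⟨fun r hr => ?_⟩
    have hr0 : r ≠ 0 := hr.ne_zero
    intro x y hxy
    have h1 : r • (x - y) = 0 := by
      rw [smul_sub]
      exact sub_eq_zero.mpr hxy
    have h2 : r.natAbs • (x - y) = 0 := by
      rcases Int.natAbs_eq r with h | h
      · rw [h, natCast_zsmul] at h1
        exact h1
      · rw [h, neg_smul, natCast_zsmul, neg_eq_zero] at h1
        exact h1
    rw [nsmul_eq_mul] at h2
    exact sub_eq_zero.mp (hk _ (Int.natAbs_pos.mpr hr0).ne' _ h2)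
  have hfl : Module.Flat ℤ R := inferInstance
  refine ⟨TensorProduct ℤ ℚ R, inferInstance, inferInstance,
    (Algebra.TensorProduct.includeRight : R →ₐ[ℤ] TensorProduct ℤ ℚ R).toRingHom, ?_⟩
  exact Algebra.TensorProduct.includeRight_injective (R := ℤ) (A := ℚ) (B := R)
    (by intro a b hab; exact_mod_cast hab)

end Pool.Agent.Helper40.TQ
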