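import Pool.Agent.Helper40.TQ.Defs

/-!
PROJECT TQ, module TQ-4. A maximal non-nilpotent quotient, and the dichotomy.

`exists_max`: Zorn (`zorn_le₀` or `zorn_subset`) for the two-sided ideals `I` of `E` (`Ideal E` with `IsTwoSided`) such that for no `m` all words of length `m` are in `I`. `⊥` is such. The union (`sSup`) of a nonempty chain is such: if all words of length `m`
are in the union, there are only finitely many (`ι` finite), so they are in one member. Take `I` maximal, `S = E ⧸ I` (`Ideal.Quotient.ring` for two-sided ideals), `π` the quotient map. A two-sided ideal `J ≠ ⊥` of `S`: `J.comap π` is two-sided and larger than `I`,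
so it contains all words of some length.
`dich`: if `(p : S) ≠ 0` the two-sided ideal `{p s}` is `≠ ⊥` and contains all words of length `a`; if some `s ≠ 0` has `p s = 0`, the two-sided ideal `{s | p s = 0}` contains all words of length `b`. A word of length `a + b` is `(p s) w = s (p w) = 0` (natural numbers are central:
`Nat.cast_comm`). So all words of length `a + b` vanish, contradiction.
-/

set_option autoImplicit false

namespace Pool.Agent.Helper40.TQ

private theorem chain_word {E ι : Type} [Ring E] (t : ι → E) (c : Set (Ideal E)) (hc : IsChain (· ≤ ·) c)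
    (hne : c.Nonempty) (T : Set (List ι)) (hT : T.Finite) :
    (∀ l ∈ T, (l.map t).prod ∈ sSup c) → ∃ I ∈ c, ∀ l ∈ T, (l.map t).prod ∈ I := by
  induction T, hT using Set.Finite.induction_on with
  | empty =>
    intro _
    obtain ⟨I, hI⟩ := hne
    exact ⟨I, hI, fun l hl => absurd hl (Set.notMem_empty l)⟩
  | @insert a T _ _ ih =>
    intro h
    obtain ⟨I, hI, hI2⟩ := ih fun l hl => h l (Set.mem_insert_of_mem a hl)
    obtain ⟨J, hJ, hJ2⟩ := (Submodule.mem_sSup_of_directed hne hc.directedOn).1 (h a (Set.mem_insert a T))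
    rcases hc.total hI hJ with h1 | h1
    · refine ⟨J, hJ, fun l hl => ?_⟩
      rcases Set.mem_insert_iff.1 hl with rfl | hl
      · exact hJ2
      · exact h1 (hI2 l hl)
    · refine ⟨I, hI, fun l hl => ?_⟩
      rcases Set.mem_insert_iff.1 hl with rfl | hl
      · exact h1 hJ2
      · exact hI2 l hl

private theorem map_comp_prod {E S ι : Type*} [Ring E] [Ring S] (t : ι → E) (π : E →+* S) (l : List ι) :
    (l.map fun i => π (t i)).prod = π ((l.map t).prod) := by
  rw [map_list_prod, List.map_map]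
  rfl

theorem exists_max {E ι : Type} [Ring E] [Finite ι] (t : ι → E) (h : ∀ m, ¬ Wz t m) :
    ∃ (S : Type) (_ : Ring S) (π : E →+* S), (∀ m, ¬ Wz (fun i => π (t i)) m) ∧
      ∀ J : Ideal S, J.IsTwoSided → J ≠ ⊥ → ∃ m, ∀ l : List ι, l.length = m → (l.map fun i => π (t i)).prod ∈ J := by
  obtain ⟨I, -, hI⟩ := zorn_le_nonempty₀
    {I : Ideal E | I.IsTwoSided ∧ ∀ m, ¬ ∀ l : List ι, l.length = m → (l.map t).prod ∈ I}
    (fun c hcs hc y hy => by
      have hne : c.Nonempty := ⟨y, hy⟩
      refine ⟨sSup c, ⟨⟨fun {a} b ha => ?_⟩, fun m hm => ?_⟩, fun z hz => le_sSup hz⟩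
      · obtain ⟨J, hJ, hJ2⟩ := (Submodule.mem_sSup_of_directed hne hc.directedOn).1 ha
        haveI := (hcs hJ).1
        exact (le_sSup hJ) (Ideal.mul_mem_right b J hJ2)
      · obtain ⟨J, hJ, hJ2⟩ := chain_word t c hc hne {l : List ι | l.length = m} (List.finite_length_eq ι m)
          fun l hl => hm l hl
        exact (hcs hJ).2 m fun l hl => hJ2 l hl)
    ⊥ ⟨inferInstance, fun m hm => h m fun l hl => (Submodule.mem_bot E).1 (hm l hl)⟩
  haveI : I.IsTwoSided := hI.prop.1
  refine ⟨E ⧸ I, Ideal.Quotient.ring I, Ideal.Quotient.mk I, fun m hm => ?_, fun J hJ hJ0 => ?_⟩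
  · refine hI.prop.2 m fun l hl => ?_
    rw [← Ideal.Quotient.eq_zero_iff_mem, ← map_comp_prod]
    exact hm l hl
  · by_contra hcon
    push Not at hcon
    have hle : I ≤ J.comap (Ideal.Quotient.mk I) := fun x hx => by
      rw [Ideal.mem_comap, Ideal.Quotient.eq_zero_iff_mem.2 hx]
      exact J.zero_mem
    have hmem : (J.comap (Ideal.Quotient.mk I)).IsTwoSided ∧
        ∀ m, ¬ ∀ l : List ι, l.length = m → (l.map t).prod ∈ J.comap (Ideal.Quotient.mk I) := by
      refine ⟨⟨fun {a} b ha => ?_⟩, fun m hm => ?_⟩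
      · rw [Ideal.mem_comap, map_mul]
        exact Ideal.mul_mem_right _ J ha
      · obtain ⟨l, hl, hl2⟩ := hcon m
        apply hl2
        rw [map_comp_prod]
        exact hm l hl
    have hge := hI.le_of_ge hmem hle
    apply hJ0
    rw [eq_bot_iff]
    intro x hx
    obtain ⟨y, rfl⟩ := Ideal.Quotient.mk_surjective x
    rw [Submodule.mem_bot, Ideal.Quotient.eq_zero_iff_mem]
    exact hge hx

theorem dich {S ι : Type*} [Ring S] (t : ι → S) (h : ∀ m, ¬ Wz t m)
    (hJ : ∀ J : Ideal S, J.IsTwoSided → J ≠ ⊥ → ∃ m, ∀ l : List ι, l.length = m → (l.map t).prod ∈ J) (p : ℕ) :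
    (p : S) = 0 ∨ ∀ s : S, (p : S) * s = 0 → s = 0 := by
  by_contra hcon
  push Not at hcon
  obtain ⟨hp, s, hs, hs0⟩ := hcon
  let J1 : Ideal S :=
    { carrier := {x | ∃ y : S, x = (p : S) * y}
      add_mem' := by
        rintro _ _ ⟨y, rfl⟩ ⟨z, rfl⟩
        exact ⟨y + z, by rw [mul_add]⟩
      zero_mem' := ⟨0, by rw [mul_zero]⟩
      smul_mem' := by
        rintro c _ ⟨y, rfl⟩
        refine ⟨c * y, ?_⟩
        rw [smul_eq_mul, ← mul_assoc, ← mul_assoc, Nat.cast_comm] }
  let J2 : Ideal S :=
    { carrier := {x | (p : S) * x = 0}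
      add_mem' := by
        intro a b ha hb
        simp only [Set.mem_setOf_eq] at ha hb ⊢
        rw [mul_add, ha, hb, add_zero]
      zero_mem' := by
        simp only [Set.mem_setOf_eq, mul_zero]
      smul_mem' := by
        intro c x hx
        simp only [Set.mem_setOf_eq] at hx ⊢
        rw [smul_eq_mul, ← mul_assoc, Nat.cast_comm, mul_assoc, hx, mul_zero] }
  have h1 : J1.IsTwoSided := ⟨by
    rintro _ b ⟨y, rfl⟩
    exact ⟨y * b, by rw [mul_assoc]⟩⟩
  have h2 : J2.IsTwoSided := ⟨by
    intro a b ha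
    change (p : S) * (a * b) = 0
    have ha2 : (p : S) * a = 0 := ha
    rw [← mul_assoc, ha2, zero_mul]⟩
  have n1 : J1 ≠ ⊥ := fun hb => hp (by
    have : (p : S) ∈ J1 := ⟨1, by rw [mul_one]⟩
    rw [hb] at this
    exact (Submodule.mem_bot S).1 this)
  have n2 : J2 ≠ ⊥ := fun hb => hs0 (by
    have : s ∈ J2 := hs
    rw [hb] at this
    exact (Submodule.mem_bot S).1 this)
  obtain ⟨a, ha⟩ := hJ J1 h1 n1
  obtain ⟨b, hb⟩ := hJ J2 h2 n2
  refine h (a + b) fun l hl => ?_
  rw [← List.take_append_drop a l, List.map_append, List.prod_append]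
  have hla : (l.take a).length = a := by
    rw [List.length_take, hl]
    omega
  have hlb : (l.drop a).length = b := by
    rw [List.length_drop, hl]
    omega
  obtain ⟨y, hy⟩ := ha _ hla
  have hz : (p : S) * ((l.drop a).map t).prod = 0 := hb _ hlb
  rw [hy, Nat.cast_comm, mul_assoc, hz, mul_zero]

end Pool.Agent.Helper40.TQ
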