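import Pool.Agent.Helper40.TQ.Cases
import Pool.Agent.Helper40.TQ.ZornRing

/-!
PROJECT TQ. The ring theorem: the augmentation ideal is nilpotent, with a bound depending on `n` and `d` only.
-/

set_option autoImplicit false

namespace Pool.Agent.Helper40.TQ

theorem ring_main {E ι G : Type} [Ring E] [Group G] [Finite ι] (n : ℕ) (hn : 2 ≤ n) (x : ι → G) (ρ : G →* E)
    (hρ : ∀ i, (ρ (x i) - 1) ^ n = 0) (hE : ∀ i, ∀ y : G, (fun y : G => y⁻¹ * (x i)⁻¹ * y * x i)^[n] y = 1)
    (hP : ∀ p : ℕ, p.Prime → p ≤ bd n → ∃ q : E, (p : E) * q = 1) : ∃ k, Wz (fun i => ρ (x i) - 1) k := by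
  by_contra hcon
  push Not at hcon
  obtain ⟨S, iS, π, hπ, hJ⟩ := exists_max (fun i => ρ (x i) - 1) hcon
  let σ : G →* S := (π : E →* S).comp ρ
  have hσ : ∀ g, σ g = π (ρ g) := fun g => rfl
  have hσ1 : ∀ i, σ (x i) - 1 = π (ρ (x i) - 1) := fun i => by rw [map_sub, map_one, hσ]
  have hσn : ∀ i, (σ (x i) - 1) ^ n = 0 := fun i => by rw [hσ1, ← map_pow, hρ i, map_zero]
  have hW : ∀ m, ¬ Wz (fun i => σ (x i) - 1) m := by
    intro m hm
    apply hπ m
    intro l hl
    have := hm l hl
    simp only [hσ1] at this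
    exact this
  have hnt : Nontrivial S := by
    by_contra hS
    rw [not_nontrivial_iff_subsingleton] at hS
    exact hπ 0 fun l _ => Subsingleton.elim _ _
  by_cases hp : ∃ p : ℕ, p.Prime ∧ (p : S) = 0
  · obtain ⟨p, hpp, hp0⟩ := hp
    have : Fact p.Prime := ⟨hpp⟩
    have hlt : bd n < p := by
      by_contra hle
      push Not at hle
      obtain ⟨q, hq⟩ := hP p hpp hle
      have h1 := congrArg π hq
      rw [map_mul, map_natCast, hp0, zero_mul, map_one] at h1
      exact zero_ne_one h1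
    obtain ⟨k, hk⟩ := prime_case n hn x σ hσn hE p hlt hp0
    exact hW k hk
  · push Not at hp
    obtain ⟨k, hk⟩ := zero_case n hn x σ hσn hE fun p hpp =>
      (dich (fun i => π (ρ (x i) - 1)) hπ hJ p).resolve_left (hp p hpp)
    exact hW k hk

theorem ring_uniform (n d : ℕ) (hn : 2 ≤ n) : ∃ k : ℕ, ∀ (E G : Type) [Ring E] [Group G] (x : Fin d → G) (ρ : G →* E),
    (∀ i, (ρ (x i) - 1) ^ n = 0) → (∀ i, ∀ y : G, (fun y : G => y⁻¹ * (x i)⁻¹ * y * x i)^[n] y = 1) →
    (∀ p : ℕ, p.Prime → p ≤ bd n → ∃ q : E, (p : E) * q = 1) → Wz (fun i => ρ (x i) - 1) k := by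
  by_contra hcon
  push Not at hcon
  choose E G iE iG x ρ hρ hE hP hW using hcon
  let ρ' : (∀ k, G k) →* (∀ k, E k) :=
    { toFun := fun g k => ρ k (g k)
      map_one' := by funext k; exact map_one (ρ k)
      map_mul' := fun g h => by funext k; exact map_mul (ρ k) (g k) (h k) }
  let x' : Fin d → ∀ k, G k := fun i k => x k i
  obtain ⟨k, hk⟩ := ring_main n hn x' ρ' (fun i => by
      funext k
      exact hρ k i) (fun i y => by
      funext k
      have h1 : ∀ (j : ℕ), ((fun y : ∀ k, G k => y⁻¹ * (x' i)⁻¹ * y * x' i)^[j] y) k =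
          (fun y : G k => y⁻¹ * (x k i)⁻¹ * y * x k i)^[j] (y k) := by
        intro j
        induction j with
        | zero => rfl
        | succ j ih =>
          rw [Function.iterate_succ_apply', Function.iterate_succ_apply', ← ih]
          rfl
      rw [h1 n, hE k i]
      rfl) (fun p hp hpn => by
      choose q hq using fun k => hP k p hp hpn
      refine ⟨q, ?_⟩
      funext k
      exact hq k)
  apply hW k
  intro l hl
  have h1 := congrFun (hk l hl) k
  have h2 : ∀ l : List (Fin d), ((l.map fun i => ρ' (x' i) - 1).prod : ∀ k, E k) k =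
      (l.map fun i => ρ k (x k i) - 1).prod := by
    intro l
    induction l with
    | nil => rfl
    | cons a l ih =>
      rw [List.map_cons, List.prod_cons, List.map_cons, List.prod_cons, ← ih]
      rfl
  rw [h2] at h1
  exact h1

end Pool.Agent.Helper40.TQ
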